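import Pool.Agent.H31.UF.Targets
import Pool.Agent.H92.LF.Mua

/-!
The module MUA of the project UF on `MP_c59857_nt`: approximation of the products of values of the
Moebius function by products of the Liouville function and the indicator functions of the integers
free of squares of small primes, uniformly in the ranges.
-/

set_option autoImplicit false

open Finset Filter Topology

namespace Pool.Agent.H54.UF

open Pool.Agent.H91.LF Pool.Agent.H31.UF
open Pool.Agent.H92.LF (Bad diff_le card_bad_le sqrt_le_aux abs_mu_le abs_sqw_le)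

section
variable {r : ℕ}

open Classical in
/-- the difference of the two products -/
private noncomputable def Dif (w : ℕ) (ε : Fin r → ℕ) (k : Fin r → ℤ) : ℝ :=
  |(∏ i, ((ArithmeticFunction.moebius (k i).toNat : ℤ) : ℝ) ^ ε i) -
    (∏ i ∈ Finset.univ.filter (fun i => Odd (ε i)), lz (k i)) * ∏ i, sqw w (k i)|

private theorem Dif_le_two (w : ℕ) (ε : Fin r → ℕ) (k : Fin r → ℤ) : Dif w ε k ≤ 2 := by
  classical
  unfold Dif
  have h1 : |∏ i, ((ArithmeticFunction.moebius (k i).toNat : ℤ) : ℝ) ^ ε i| ≤ 1 := by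
    rw [Finset.abs_prod]
    refine Finset.prod_le_one (fun _ _ => abs_nonneg _) fun i _ => ?_
    rw [abs_pow]
    exact pow_le_one₀ (abs_nonneg _) (abs_mu_le _)
  have h2 : |∏ i ∈ Finset.univ.filter (fun i => Odd (ε i)), lz (k i)| ≤ 1 := by
    rw [Finset.abs_prod]
    exact Finset.prod_le_one (fun _ _ => abs_nonneg _) fun i _ => abs_lz_le _
  have h3 : |∏ i, sqw w (k i)| ≤ 1 := by
    rw [Finset.abs_prod]
    exact Finset.prod_le_one (fun _ _ => abs_nonneg _) fun i _ => abs_sqw_le _ _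
  have h6 := abs_sub (∏ i, ((ArithmeticFunction.moebius (k i).toNat : ℤ) : ℝ) ^ ε i)
    ((∏ i ∈ Finset.univ.filter (fun i => Odd (ε i)), lz (k i)) * ∏ i, sqw w (k i))
  have h7 : |(∏ i ∈ Finset.univ.filter (fun i => Odd (ε i)), lz (k i)) * ∏ i, sqw w (k i)| ≤
      1 := by
    rw [abs_mul]
    exact mul_le_one₀ h2 (abs_nonneg _) h3
  linarith

private theorem sum_int (g : ℤ → ℝ) (N : ℕ) :
    ∑ n ∈ Finset.Icc (1 : ℤ) N, g n = ∑ n ∈ Finset.Icc 1 N, g (n : ℤ) := by
  symm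
  refine Finset.sum_nbij (fun n : ℕ => (n : ℤ)) (fun n hn => ?_) (fun a _ b _ h => ?_)
    (fun n hn => ?_) (fun _ _ => rfl)
  · rw [Finset.mem_Icc] at hn ⊢
    omega
  · exact Int.natCast_inj.1 h
  · rw [Finset.mem_coe, Finset.mem_Icc] at hn
    refine ⟨n.toNat, ?_, ?_⟩
    · rw [Finset.mem_coe, Finset.mem_Icc]
      omega
    · simp only
      omega

/-- the two bounds for one `N` -/
private theorem one_N (α : Fin r → ℤ) (ε : Fin r → ℕ) (hε : ∀ i, 1 ≤ ε i) (w : ℕ) (hw : 0 < w)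
    (B : ℕ) (hB : ∀ i, |α i| ≤ B) (N : ℕ) (hN : 0 < N) :
    (∑ n ∈ Finset.Icc (1 : ℤ) N, Dif w ε (fun i => n + α i)) / N ≤ 2 ∧
    (∑ n ∈ Finset.Icc (1 : ℤ) N, Dif w ε (fun i => n + α i)) / N ≤
      2 * r * (3 / w) + 2 * r * (2 * B + w + 2) * (1 / N) := by
  classical
  have hN0 : (0 : ℝ) < N := by exact_mod_cast hN
  have hN1 : (1 : ℝ) ≤ N := by exact_mod_cast hN
  have hw0 : (0 : ℝ) < w := by exact_mod_cast hw
  rw [sum_int, div_le_iff₀ hN0, div_le_iff₀ hN0]
  constructor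
  · calc ∑ n ∈ Finset.Icc 1 N, Dif w ε (fun i => (n : ℤ) + α i)
        ≤ ∑ n ∈ Finset.Icc 1 N, (2 : ℝ) := Finset.sum_le_sum fun n _ => Dif_le_two _ _ _
      _ = 2 * N := by
        rw [Finset.sum_const, Nat.card_Icc, nsmul_eq_mul]
        simp
        ring
  · have h1 : ∑ n ∈ Finset.Icc 1 N, Dif w ε (fun i => (n : ℤ) + α i) ≤
        ∑ n ∈ Icc 1 N, 2 * ∑ i, if Bad w ((n : ℤ) + α i) then (1 : ℝ) else 0 :=
      Finset.sum_le_sum fun (n : ℕ) _ => diff_le (fun i => (n : ℤ) + α i) ε hε w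
    refine h1.trans ?_
    rw [← Finset.mul_sum, Finset.sum_comm]
    have h2 : ∀ i ∈ (univ : Finset (Fin r)),
        (∑ n ∈ Icc 1 N, if Bad w ((n : ℤ) + α i) then (1 : ℝ) else 0) ≤
        3 / w * N + (2 * B + w + 2) := by
      intro i _
      have h3 : (∑ n ∈ Icc 1 N, if Bad w ((n : ℤ) + α i) then (1 : ℝ) else 0) =
          (((Icc 1 N).filter fun n : ℕ => Bad w ((n : ℤ) + α i)).card : ℝ) := by
        rw [Finset.sum_boole]
      rw [h3]
      have h4 := card_bad_le w hw (α i) B (hB i) N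
      have h5 := sqrt_le_aux w B N hw
      have h6 : ((N : ℝ) + 1) * (1 / w) ≤ 2 / w * N := by
        rw [mul_one_div, div_mul_eq_mul_div]
        apply div_le_div_of_nonneg_right _ hw0.le
        linarith
      have h7 : 3 / (w : ℝ) * N = 2 / w * N + N / w := by ring
      rw [h7]
      linarith
    have h8 := Finset.sum_le_sum h2
    rw [Finset.sum_const, nsmul_eq_mul, Finset.card_univ, Fintype.card_fin] at h8
    have h9 : (2 * (r : ℝ) * (3 / w) + 2 * r * (2 * B + w + 2) * (1 / N)) * N =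
        2 * (r * (3 / w * N + (2 * B + w + 2))) := by
      field_simp
    rw [h9]
    linarith

end

/-- the reciprocals of the `N ≤ T` -/
private theorem sum_small (x y T : ℕ) (hx : 0 < x) (L : ℝ) (hL : 0 ≤ L) (K : ℕ) (hK : 0 < K)
    (h : ((T : ℝ) / x) ^ K ≤ Real.exp L) (hT : 0 < T) :
    ∑ N ∈ (Finset.Icc x y).filter (fun N => N ≤ T), (1 / (N : ℝ)) ≤ L / K + 1 := by
  have hK0 : (0 : ℝ) < K := by exact_mod_cast hK
  by_cases hxT : x ≤ T
  · have h1 : ∑ N ∈ (Finset.Icc x y).filter (fun N => N ≤ T), (1 / (N : ℝ)) ≤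
        ∑ N ∈ Finset.Icc x T, (1 / (N : ℝ)) := by
      refine Finset.sum_le_sum_of_subset_of_nonneg ?_ fun n _ _ => by positivity
      intro n hn
      rw [Finset.mem_filter, Finset.mem_Icc] at hn
      rw [Finset.mem_Icc]
      omega
    have h2 := Pool.Agent.H66.AAS.sum_inv_le x T hx hxT
    have hx0 : (0 : ℝ) < x := by exact_mod_cast hx
    have hT0 : (0 : ℝ) < T := by exact_mod_cast hT
    have h3 : (K : ℝ) * Real.log ((T : ℝ) / x) ≤ L := by
      rw [← Real.log_pow]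
      have := Real.log_le_log (by positivity) h
      rwa [Real.log_exp] at this
    have h4 : Real.log ((T : ℝ) / x) ≤ L / K := by
      rw [le_div_iff₀ hK0]
      linarith
    linarith
  · have h1 : (Finset.Icc x y).filter (fun N => N ≤ T) = ∅ := by
      rw [Finset.filter_eq_empty_iff]
      intro n hn
      rw [Finset.mem_Icc] at hn
      omega
    rw [h1, Finset.sum_empty]
    positivity

/-- the squares of the reciprocals of the `N > T` -/
private theorem sum_large (x y T : ℕ) :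
    ∑ N ∈ (Finset.Icc x y).filter (fun N => T < N), (1 / (N : ℝ)) * (1 / N) ≤ 2 / (T + 1) := by
  have h1 : ∑ N ∈ (Finset.Icc x y).filter (fun N => T < N), (1 / (N : ℝ)) * (1 / N) ≤
      ∑ N ∈ Finset.Ioo T (y + 1), (1 / (N : ℝ)) * (1 / N) := by
    refine Finset.sum_le_sum_of_subset_of_nonneg ?_ fun n _ _ => by positivity
    intro n hn
    rw [Finset.mem_filter, Finset.mem_Icc] at hn
    rw [Finset.mem_Ioo]
    omega
  refine h1.trans ?_
  have h3 := sum_Ioo_inv_sq_le (α := ℝ) T (y + 1)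
  have h4 : ∀ N ∈ Finset.Ioo T (y + 1), (1 / (N : ℝ)) * (1 / N) = ((N : ℝ) ^ 2)⁻¹ := by
    intro N _
    rw [one_div, ← mul_inv, pow_two]
  rw [Finset.sum_congr rfl h4]
  exact h3

/-- [MUA] -/
theorem pf_MUA : T_MUA := by
  classical
  intro r η hη
  obtain ⟨w₀, hw₀⟩ := exists_nat_ge (24 * (r : ℝ) / η)
  refine ⟨w₀ + 1, fun m a b ε hε => ?_⟩
  obtain ⟨w, hw⟩ : ∃ w : ℕ, w = w₀ + 1 := ⟨_, rfl⟩
  rw [← hw]
  have hwp : 0 < w := by omega
  have hw0 : (0 : ℝ) < w := by exact_mod_cast hwp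
  have hwη : 2 * (r : ℝ) * (3 / w) ≤ η / 4 := by
    have h1 : 24 * (r : ℝ) / η ≤ w := by
      refine hw₀.trans ?_
      rw [hw]
      push_cast
      linarith
    rw [div_le_iff₀ hη] at h1
    have h2 : 2 * (r : ℝ) * (3 / w) = 6 * r / w := by ring
    rw [h2, div_le_iff₀ hw0]
    nlinarith
  obtain ⟨A, hA⟩ : ∃ A : ℕ, ∀ i, |a i| + ∑ l, |b i l| ≤ A := by
    refine ⟨(∑ i, (|a i| + ∑ l, |b i l|)).toNat, fun i => ?_⟩
    have h0 : ∀ i, 0 ≤ |a i| + ∑ l, |b i l| := fun i =>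
      add_nonneg (abs_nonneg _) (Finset.sum_nonneg fun _ _ => abs_nonneg _)
    rw [Int.toNat_of_nonneg (Finset.sum_nonneg fun i _ => h0 i)]
    exact Finset.single_le_sum (f := fun i => |a i| + ∑ l, |b i l|) (fun i _ => h0 i)
      (Finset.mem_univ i)
  obtain ⟨C, hC⟩ : ∃ C : ℝ, C = 4 * r * (2 * A + w + 2) := ⟨_, rfl⟩
  have hC0 : 0 ≤ C := by rw [hC]; positivity
  obtain ⟨K, hK⟩ := exists_nat_ge (8 / η + Real.exp (1 + 4 * (C + 2) / η))
  refine ⟨K, fun T x y hRg t ht => ?_⟩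
  obtain ⟨hKT, hx, hxy, hTx⟩ := hRg
  have hx0 : (0 : ℝ) < x := by exact_mod_cast hx
  have hexp : 0 < Real.exp (1 + 4 * (C + 2) / η) := Real.exp_pos _
  have h8η : 0 < 8 / η := by positivity
  have hK0 : (0 : ℝ) < K := by linarith
  have hKp : 0 < K := by exact_mod_cast hK0
  have hTp : 0 < T := by omega
  have hT1 : (1 : ℝ) ≤ T := by exact_mod_cast hTp
  have hKx : (K : ℝ) ≤ (y : ℝ) / x := by
    rw [le_div_iff₀ hx0]
    exact_mod_cast hxy
  have hyx : 0 < (y : ℝ) / x := hK0.trans_le hKx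
  obtain ⟨L, hLdef⟩ : ∃ L : ℝ, L = Real.log ((y : ℝ) / x) := ⟨_, rfl⟩
  rw [← hLdef]
  have hL : 1 + 4 * (C + 2) / η ≤ L := by
    rw [hLdef, Real.le_log_iff_exp_le hyx]
    linarith
  have hL0 : 0 ≤ L := by
    have : 0 ≤ 4 * (C + 2) / η := by positivity
    linarith
  have hxy' : x ≤ y := le_trans (by nlinarith) hxy
  -- the shifts
  have hB : ∀ i, |a i + ∑ l, b i l * (t l : ℤ)| ≤ ((A * T : ℕ) : ℤ) := by
    intro i
    have h1 : |∑ l, b i l * (t l : ℤ)| ≤ (∑ l, |b i l|) * T := by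
      refine (Finset.abs_sum_le_sum_abs _ _).trans ?_
      rw [Finset.sum_mul]
      refine Finset.sum_le_sum fun l _ => ?_
      rw [abs_mul]
      refine mul_le_mul_of_nonneg_left ?_ (abs_nonneg _)
      have h2 := (Finset.mem_Icc.1 ((Fintype.mem_piFinset.1 ht) l)).2
      rw [Nat.abs_cast]
      exact_mod_cast h2
    have h2 : |a i| ≤ |a i| * T := by
      have h3 : (1 : ℤ) ≤ T := by exact_mod_cast hTp
      nlinarith [abs_nonneg (a i)]
    have h3 : (|a i| + ∑ l, |b i l|) * T ≤ (A : ℤ) * T :=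
      mul_le_mul_of_nonneg_right (hA i) (by positivity)
    push_cast
    have h4 := abs_add_le (a i) (∑ l, b i l * (t l : ℤ))
    rw [add_mul] at h3
    linarith
  obtain ⟨F, hF⟩ : ∃ F : ℕ → ℝ, F = fun N : ℕ => (∑ n ∈ Finset.Icc (1 : ℤ) (N : ℤ),
    Dif w ε (fun i => n + (a i + ∑ l, b i l * (t l : ℤ)))) / N := ⟨_, rfl⟩
  have hfrm : ∀ (n : ℤ) (i : Fin r), frm (a i) (b i) n (fun l => (t l : ℤ)) =
      n + (a i + ∑ l, b i l * (t l : ℤ)) := by
    intro n i
    unfold frm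
    ring
  have hgoal : ∀ N : ℕ, (∑ n ∈ Finset.Icc (1 : ℤ) N,
        |(∏ i, ((ArithmeticFunction.moebius
            ((n + (a i + ∑ l, b i l * (t l : ℤ))).toNat) : ℤ) : ℝ) ^ ε i) -
          (∏ i ∈ Finset.univ.filter (fun i => Odd (ε i)),
              lz (frm (a i) (b i) n (fun l => (t l : ℤ)))) *
            ∏ i, sqw w (frm (a i) (b i) n (fun l => (t l : ℤ)))|) / N = F N := by
    intro N
    rw [hF]
    simp only [hfrm]
    rfl
  simp only [hgoal]
  obtain ⟨C2, hC2⟩ : ∃ C2 : ℝ, C2 = 2 * r * (2 * ((A * T : ℕ) : ℝ) + w + 2) := ⟨_, rfl⟩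
  have hC20 : 0 ≤ C2 := by rw [hC2]; positivity
  have hC2C : C2 * (2 / (T + 1)) ≤ C := by
    rw [hC2, hC]
    have h1 : (2 * ((A * T : ℕ) : ℝ) + w + 2) ≤ (2 * A + w + 2) * (T + 1) := by
      push_cast
      have : (0 : ℝ) ≤ A := by positivity
      nlinarith
    have h2 : 2 * (r : ℝ) * (2 * ((A * T : ℕ) : ℝ) + w + 2) * (2 / (T + 1)) ≤
        2 * r * ((2 * A + w + 2) * (T + 1)) * (2 / (T + 1)) := by
      gcongr
    refine h2.trans (le_of_eq ?_)
    have h3 : ((T : ℝ) + 1) ≠ 0 := by positivity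
    field_simp
    ring
  have h1 : ∀ N ∈ Finset.Icc x y, (1 / (N : ℝ)) * F N ≤
      (1 / (N : ℝ)) * (η / 4) + (if N ≤ T then 2 * (1 / (N : ℝ)) else 0) +
        (if T < N then C2 * ((1 / (N : ℝ)) * (1 / N)) else 0) := by
    intro N hN
    rw [Finset.mem_Icc] at hN
    have hNp : 0 < N := by omega
    have hN0 : (0 : ℝ) ≤ 1 / N := by positivity
    obtain ⟨h2, h3⟩ := one_N (fun i => a i + ∑ l, b i l * (t l : ℤ)) ε hε w hwp (A * T) hB N hNp
    have h4 : F N ≤ 2 := by rw [hF]; exact h2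
    have h5 : F N ≤ 2 * r * (3 / w) + C2 * (1 / N) := by rw [hF, hC2]; exact h3
    by_cases hNT : N ≤ T
    · rw [if_pos hNT, if_neg (by omega), add_zero]
      have h6 := mul_le_mul_of_nonneg_left h4 hN0
      have h7 : 0 ≤ (1 / (N : ℝ)) * (η / 4) := by positivity
      linarith
    · rw [if_neg hNT, if_pos (by omega), add_zero]
      have h6 := mul_le_mul_of_nonneg_left h5 hN0
      have h7 := mul_le_mul_of_nonneg_left hwη hN0
      have h8 : (1 / (N : ℝ)) * (2 * r * (3 / w) + C2 * (1 / N)) =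
          (1 / (N : ℝ)) * (2 * r * (3 / w)) + C2 * ((1 / (N : ℝ)) * (1 / N)) := by ring
      rw [h8] at h6
      linarith
  refine (Finset.sum_le_sum h1).trans ?_
  rw [Finset.sum_add_distrib, Finset.sum_add_distrib, ← Finset.sum_mul, ← Finset.sum_filter,
    ← Finset.sum_filter, ← Finset.mul_sum, ← Finset.mul_sum]
  have h7 := Pool.Agent.H66.AAS.sum_inv_le x y hx hxy'
  rw [← hLdef] at h7
  have h8 := sum_small x y T hx L hL0 K hKp (by rw [hLdef, Real.exp_log hyx]; exact hTx) hTp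
  have h9 := sum_large x y T
  have h10 := mul_le_mul_of_nonneg_right h7 (show (0 : ℝ) ≤ η / 4 by positivity)
  have h11 := (mul_le_mul_of_nonneg_left h9 hC20).trans hC2C
  have h12 : L / K ≤ η / 8 * L := by
    rw [div_le_iff₀ hK0]
    have h13 : 8 / η ≤ K := by linarith
    rw [div_le_iff₀ hη] at h13
    nlinarith
  have h14 : (1 + 4 * (C + 2) / η) * (η / 4) ≤ L * (η / 4) :=
    mul_le_mul_of_nonneg_right hL (by positivity)
  have h15 : (1 + 4 * (C + 2) / η) * (η / 4) = η / 4 + (C + 2) := by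
    field_simp
  nlinarith

end Pool.Agent.H54.UF
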